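import Mathlib

set_option autoImplicit false

namespace Pool.Agent.Helper175.NS

/-- A finite abstract simplicial complex with vertices in `V`: a finite family of finite sets
closed under taking subsets. -/
structure Cx (V : Type) where
  faces : Finset (Finset V)
  down : ∀ F ∈ faces, ∀ G ⊆ F, G ∈ faces

/-- The points spanned by a finite family `L` of finite sets, in barycentric coordinates: all
nonnegative functions supported on a member of `L` with total mass one. -/
def Sp {V : Type} (L : Finset (Finset V)) : Set (V → ℝ) :=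
  {x | (∀ v, 0 ≤ x v) ∧ ∃ F ∈ L, (∀ v, v ∉ F → x v = 0) ∧ ∑ v ∈ F, x v = 1}

/-- The geometric realization of a complex (with the topology induced from `V → ℝ`). -/
def Cx.space {V : Type} (Δ : Cx V) : Set (V → ℝ) := Sp Δ.faces

/-- A facet is a maximal face. -/
def Cx.IsFacet {V : Type} (Δ : Cx V) (F : Finset V) : Prop :=
  F ∈ Δ.faces ∧ ∀ G ∈ Δ.faces, F ⊆ G → G = F

/-- A complex is pure if all its facets have the same number of vertices. -/
def Cx.Pure {V : Type} (Δ : Cx V) : Prop :=
  ∀ F G, Δ.IsFacet F → Δ.IsFacet G → F.card = G.card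

/-- Shellability of pure complexes: the facets can be listed as `l` so that for every `i > 0` the
intersection of the complex generated by the earlier facets with the complex of all faces of
`l[i]` is pure of dimension `dim l[i] - 1`, that is, every face `G` of it lies in a face `H` of it
with one vertex less than `l[i]`. -/
def Cx.Shellable {V : Type} (Δ : Cx V) : Prop :=
  Δ.Pure ∧ ∃ l : List (Finset V), l.Nodup ∧ (∀ F, F ∈ l ↔ Δ.IsFacet F) ∧
    ∀ (i : ℕ) (hi : i < l.length), 0 < i →
      ∀ G : Finset V, (G ⊆ l[i] ∧ ∃ (j : ℕ) (hj : j < i), G ⊆ l[j]) →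
        ∃ H : Finset V, (H ⊆ l[i] ∧ ∃ (j : ℕ) (hj : j < i), H ⊆ l[j]) ∧ G ⊆ H ∧
          H.card + 1 = (l[i]).card

end Pool.Agent.Helper175.NS
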