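import Mathlib
import Pool.Agent.Helper175.NS.Defs

set_option autoImplicit false

namespace Pool.Agent.Helper175.NS

open Finset

/-- stellar subdivision of the complex generated by `L` at the set `ρ` with the new vertex `v` -/
def star {V : Type} [DecidableEq V] (L : Finset (Finset V)) (ρ : Finset V) (v : V) :
    Finset (Finset V) :=
  L.filter (fun F => ¬ ρ ⊆ F) ∪
    (L.filter (fun F => ρ ⊆ F)).biUnion (fun F => ρ.image (fun z => insert v (F.erase z)))

/-- The map from the subdivision to the original. -/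
noncomputable def fwd {V : Type} [DecidableEq V] (ρ : Finset V) (v : V) (x : V → ℝ) : V → ℝ :=
  fun u => if u = v then 0 else x u + (if u ∈ ρ then x v / ρ.card else 0)

/-- The map from the original to the subdivision. -/
noncomputable def bwd {V : Type} [DecidableEq V] (ρ : Finset V) (hρ : ρ.Nonempty) (v : V)
    (y : V → ℝ) : V → ℝ :=
  fun u => if u = v then ρ.card * ρ.inf' hρ y else
    if u ∈ ρ then y u - ρ.inf' hρ y else y u

theorem sum_ite_const {V : Type} [DecidableEq V] {F ρ : Finset V} (h : ρ ⊆ F) (c : ℝ) :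
    ∑ u ∈ F, (if u ∈ ρ then c else 0) = ρ.card * c := by
  rw [← Finset.sum_filter, Finset.sum_const, nsmul_eq_mul]
  congr 2
  rw [Finset.filter_mem_eq_inter, Finset.inter_eq_right.2 h]

theorem star_cases {V : Type} [DecidableEq V] {L : Finset (Finset V)} {ρ : Finset V} {v : V}
    {G : Finset V} (hG : G ∈ star L ρ v) :
    (G ∈ L ∧ ¬ ρ ⊆ G) ∨ ∃ F ∈ L, ρ ⊆ F ∧ ∃ z ∈ ρ, G = insert v (F.erase z) := by
  unfold star at hG
  rw [Finset.mem_union, Finset.mem_filter, Finset.mem_biUnion] at hG
  rcases hG with hG | ⟨F, hF, hG⟩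
  · exact Or.inl hG
  · rw [Finset.mem_filter] at hF
    rw [Finset.mem_image] at hG
    obtain ⟨z, hz, rfl⟩ := hG
    exact Or.inr ⟨F, hF.1, hF.2, z, hz, rfl⟩

theorem fwd_mem {V : Type} [DecidableEq V] {L : Finset (Finset V)} {ρ : Finset V} {v : V}
    (hρ : ρ.Nonempty) (hv : ∀ F ∈ L, v ∉ F) (hvρ : v ∉ ρ) {x : V → ℝ}
    (hx : x ∈ Sp (star L ρ v)) : fwd ρ v x ∈ Sp L := by
  obtain ⟨hx0, G, hG, hxG, hsum⟩ := hx
  have hcard : (0 : ℝ) < ρ.card := by exact_mod_cast hρ.card_pos
  refine ⟨fun u => ?_, ?_⟩
  · unfold fwd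
    have := hx0 u
    have := div_nonneg (hx0 v) hcard.le
    split_ifs <;> linarith
  · rcases star_cases hG with ⟨hGL, hρG⟩ | ⟨F, hF, hρF, z, hz, rfl⟩
    · have hxv : x v = 0 := hxG v (hv G hGL)
      have he : fwd ρ v x = x := by
        funext u
        unfold fwd
        split_ifs with h1 h2
        · rw [h1, hxv]
        · rw [hxv]; simp
        · simp
      rw [he]
      exact ⟨G, hGL, hxG, hsum⟩
    · have hzF := hρF hz
      have hzv : z ≠ v := fun h => hvρ (h ▸ hz)
      have hvF := hv F hF
      refine ⟨F, hF, ?_, ?_⟩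
      · intro u hu
        unfold fwd
        split_ifs with h1 h2
        · rfl
        · exact absurd (hρF h2) hu
        · rw [hxG u (by simp [h1, hu]), add_zero]
      · have h1 : ∑ u ∈ F, fwd ρ v x u = ∑ u ∈ F, x u + ∑ u ∈ F, (if u ∈ ρ then x v / ρ.card else 0) := by
          rw [← Finset.sum_add_distrib]
          refine Finset.sum_congr rfl fun u hu => ?_
          have : u ≠ v := fun h => hvF (h ▸ hu)
          simp [fwd, this]
        rw [h1, sum_ite_const hρF, mul_div_cancel₀ _ hcard.ne']
        have hxz : x z = 0 := hxG z (by simp [hzv])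
        rw [Finset.sum_insert (by simp [hvF])] at hsum
        rw [← Finset.add_sum_erase F x hzF, hxz, zero_add]
        linarith

theorem exists_zero {V : Type} [DecidableEq V] {L : Finset (Finset V)} {ρ : Finset V} {v : V}
    (hvρ : v ∉ ρ) {x : V → ℝ}
    (hx : x ∈ Sp (star L ρ v)) : ∃ z ∈ ρ, x z = 0 := by
  obtain ⟨hx0, G, hG, hxG, hsum⟩ := hx
  rcases star_cases hG with ⟨hGL, hρG⟩ | ⟨F, hF, hρF, z, hz, rfl⟩
  · rw [Finset.not_subset] at hρG
    obtain ⟨z, hz, hzG⟩ := hρG
    exact ⟨z, hz, hxG z hzG⟩
  · have hzv : z ≠ v := fun h => hvρ (h ▸ hz)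
    exact ⟨z, hz, hxG z (by simp [hzv])⟩

theorem bwd_mem {V : Type} [DecidableEq V] {L : Finset (Finset V)} {ρ : Finset V} {v : V}
    (hρ : ρ.Nonempty) (hv : ∀ F ∈ L, v ∉ F) (hvρ : v ∉ ρ) {y : V → ℝ}
    (hy : y ∈ Sp L) : bwd ρ hρ v y ∈ Sp (star L ρ v) := by
  obtain ⟨hy0, F, hF, hyF, hsum⟩ := hy
  have hm0 : 0 ≤ ρ.inf' hρ y := Finset.le_inf' _ _ fun u _ => hy0 u
  have hvF := hv F hF
  refine ⟨fun u => ?_, ?_⟩
  · unfold bwd
    split_ifs with h1 h2
    · positivity
    · have := Finset.inf'_le y h2
      linarith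
    · exact hy0 u
  · by_cases hρF : ρ ⊆ F
    · obtain ⟨z, hz, hzm⟩ := Finset.exists_mem_eq_inf' hρ y
      have hzF := hρF hz
      have hzv : z ≠ v := fun h => hvρ (h ▸ hz)
      refine ⟨insert v (F.erase z), ?_, ?_, ?_⟩
      · unfold star
        rw [Finset.mem_union, Finset.mem_biUnion]
        right
        exact ⟨F, Finset.mem_filter.2 ⟨hF, hρF⟩, Finset.mem_image_of_mem _ hz⟩
      · intro u hu
        rw [Finset.mem_insert, Finset.mem_erase, not_or, not_and_or, not_not] at hu
        unfold bwd
        rw [if_neg hu.1]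
        rcases hu.2 with h | h
        · rw [h, if_pos hz, hzm, sub_self]
        · rw [if_neg (fun h' => h (hρF h')), hyF u h]
      · rw [Finset.sum_insert (by simp [hvF])]
        have h1 : bwd ρ hρ v y z = 0 := by
          unfold bwd
          rw [if_neg hzv, if_pos hz, hzm, sub_self]
        have h2 : ∑ u ∈ F.erase z, bwd ρ hρ v y u = ∑ u ∈ F, bwd ρ hρ v y u := by
          rw [← Finset.add_sum_erase F _ hzF, h1, zero_add]
        have h3 : ∑ u ∈ F, bwd ρ hρ v y u =
            ∑ u ∈ F, y u - ∑ u ∈ F, (if u ∈ ρ then ρ.inf' hρ y else 0) := by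
          rw [← Finset.sum_sub_distrib]
          refine Finset.sum_congr rfl fun u hu => ?_
          have : u ≠ v := fun h => hvF (h ▸ hu)
          unfold bwd
          rw [if_neg this]
          split_ifs <;> ring
        rw [h2, h3, sum_ite_const hρF, hsum]
        have h4 : bwd ρ hρ v y v = ρ.card * ρ.inf' hρ y := by
          unfold bwd
          rw [if_pos rfl]
        rw [h4]
        ring
    · rw [Finset.not_subset] at hρF
      obtain ⟨z, hz, hzF⟩ := hρF
      have hm : ρ.inf' hρ y = 0 := by
        apply le_antisymm _ hm0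
        have := Finset.inf'_le y hz
        rwa [hyF z hzF] at this
      have he : bwd ρ hρ v y = y := by
        funext u
        unfold bwd
        rw [hm]
        split_ifs with h1 h2
        · rw [h1, hyF v hvF, mul_zero]
        · rw [sub_zero]
        · rfl
      rw [he]
      refine ⟨F, ?_, hyF, hsum⟩
      unfold star
      rw [Finset.mem_union, Finset.mem_filter]
      left
      exact ⟨hF, fun h => hzF (h hz)⟩

theorem star_homeo {V : Type} [DecidableEq V] (L : Finset (Finset V)) (ρ : Finset V) (v : V)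
    (hρ : ρ.Nonempty) (hv : ∀ F ∈ L, v ∉ F) (hvρ : v ∉ ρ) :
    Nonempty (Sp (star L ρ v) ≃ₜ Sp L) := by
  have hcard : (0 : ℝ) < ρ.card := by exact_mod_cast hρ.card_pos
  refine ⟨{ toFun := fun x => ⟨fwd ρ v x.1, fwd_mem hρ hv hvρ x.2⟩
            invFun := fun y => ⟨bwd ρ hρ v y.1, bwd_mem hρ hv hvρ y.2⟩
            left_inv := ?_
            right_inv := ?_
            continuous_toFun := ?_
            continuous_invFun := ?_ }⟩
  · rintro ⟨x, hx⟩
    apply Subtype.ext
    show bwd ρ hρ v (fwd ρ v x) = x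
    obtain ⟨z, hz, hxz⟩ := exists_zero hvρ hx
    have hzv : z ≠ v := fun h => hvρ (h ▸ hz)
    have hm : ρ.inf' hρ (fwd ρ v x) = x v / ρ.card := by
      apply le_antisymm
      · refine (Finset.inf'_le (fwd ρ v x) hz).trans ?_
        unfold fwd
        rw [if_neg hzv, if_pos hz, hxz, zero_add]
      · apply Finset.le_inf'
        intro u hu
        have huv : u ≠ v := fun h => hvρ (h ▸ hu)
        unfold fwd
        rw [if_neg huv, if_pos hu]
        linarith [hx.1 u]
    funext u
    unfold bwd
    rw [hm]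
    split_ifs with h1 h2
    · rw [h1, mul_div_cancel₀ _ hcard.ne']
    · unfold fwd
      rw [if_neg h1, if_pos h2]
      ring
    · unfold fwd
      rw [if_neg h1, if_neg h2, add_zero]
  · rintro ⟨y, hy⟩
    apply Subtype.ext
    show fwd ρ v (bwd ρ hρ v y) = y
    obtain ⟨hy0, F, hF, hyF, hsum⟩ := hy
    have hyv : y v = 0 := hyF v (hv F hF)
    funext u
    unfold fwd
    split_ifs with h1 h2
    · rw [h1, hyv]
    · unfold bwd
      rw [if_neg h1, if_pos h2, if_pos rfl, mul_div_cancel_left₀ _ hcard.ne']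
      ring
    · unfold bwd
      rw [if_neg h1, if_neg h2, add_zero]
  · apply Continuous.subtype_mk
    apply continuous_pi
    intro u
    have hc : ∀ w : V, Continuous fun x : Sp (star L ρ v) => (x : V → ℝ) w := fun w =>
      (continuous_apply w).comp continuous_subtype_val
    unfold fwd
    split_ifs with h1 h2
    · exact continuous_const
    · exact (hc u).add ((hc v).div_const _)
    · exact (hc u).add continuous_const
  · apply Continuous.subtype_mk
    apply continuous_pi
    intro u
    have hc : ∀ w : V, Continuous fun x : Sp L => (x : V → ℝ) w := fun w =>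
      (continuous_apply w).comp continuous_subtype_val
    have hm : Continuous fun x : Sp L => ρ.inf' hρ (x : V → ℝ) :=
      Continuous.finset_inf'_apply hρ fun i _ => hc i
    unfold bwd
    split_ifs with h1 h2
    · exact continuous_const.mul hm
    · exact (hc u).sub hm
    · exact hc u


theorem relabel_homeo {V W : Type} [DecidableEq V] [DecidableEq W] (L : Finset (Finset V))
    (f : V → W) (S : Finset V) (hS : ∀ F ∈ L, F ⊆ S) (hf : Set.InjOn f S) :
    Nonempty (Sp (L.image (fun F => F.image f)) ≃ₜ Sp L) := by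
  classical
  -- the two maps on functions
  let a : (W → ℝ) → (V → ℝ) := fun y u => if u ∈ S then y (f u) else 0
  let b : (V → ℝ) → (W → ℝ) := fun x w => ∑ u ∈ S.filter (fun u => f u = w), x u
  have hbf : ∀ (x : V → ℝ) (u : V), u ∈ S → b x (f u) = x u := by
    intro x u hu
    have : S.filter (fun u' => f u' = f u) = {u} := by
      ext v
      simp only [Finset.mem_filter, Finset.mem_singleton]
      constructor
      · rintro ⟨h1, h2⟩
        exact hf h1 hu h2
      · rintro rfl
        exact ⟨hu, rfl⟩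
    show ∑ u' ∈ S.filter (fun u' => f u' = f u), x u' = x u
    rw [this, Finset.sum_singleton]
  have ha : ∀ y ∈ Sp (L.image (fun F => F.image f)), a y ∈ Sp L := by
    rintro y ⟨hy0, F', hF', hy1, hy2⟩
    obtain ⟨F, hF, rfl⟩ := Finset.mem_image.1 hF'
    have hFS := hS F hF
    refine ⟨?_, F, hF, ?_, ?_⟩
    · intro u
      show 0 ≤ (if u ∈ S then y (f u) else 0)
      split_ifs
      · exact hy0 _
      · exact le_rfl
    · intro u hu
      show (if u ∈ S then y (f u) else 0) = 0
      split_ifs with h
      · apply hy1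
        intro hmem
        obtain ⟨u', hu', he⟩ := Finset.mem_image.1 hmem
        have := hf (hFS hu') h he
        exact hu (this ▸ hu')
      · rfl
    · rw [Finset.sum_image (fun u hu v hv h => hf (hFS hu) (hFS hv) h)] at hy2
      rw [← hy2]
      apply Finset.sum_congr rfl
      intro u hu
      show (if u ∈ S then y (f u) else 0) = y (f u)
      rw [if_pos (hFS hu)]
  have hb0 : ∀ x ∈ Sp L, b x ∈ Sp (L.image (fun F => F.image f)) := by
    rintro x ⟨hx0, F, hF, hx1, hx2⟩
    have hFS := hS F hF
    refine ⟨?_, F.image f, Finset.mem_image_of_mem _ hF, ?_, ?_⟩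
    · intro w
      exact Finset.sum_nonneg (fun u _ => hx0 u)
    · intro w hw
      apply Finset.sum_eq_zero
      intro u hu
      obtain ⟨_, hu2⟩ := Finset.mem_filter.1 hu
      apply hx1
      intro huF
      exact hw (Finset.mem_image.2 ⟨u, huF, hu2⟩)
    · rw [Finset.sum_image (fun u hu v hv h => hf (hFS hu) (hFS hv) h), ← hx2]
      apply Finset.sum_congr rfl
      intro u hu
      exact hbf x u (hFS hu)
  have hba : ∀ y ∈ Sp (L.image (fun F => F.image f)), b (a y) = y := by
    rintro y ⟨hy0, F', hF', hy1, hy2⟩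
    obtain ⟨F, hF, rfl⟩ := Finset.mem_image.1 hF'
    have hFS := hS F hF
    funext w
    by_cases hw : ∃ u ∈ S, f u = w
    · obtain ⟨u, hu, rfl⟩ := hw
      rw [hbf _ u hu]
      show (if u ∈ S then y (f u) else 0) = y (f u)
      rw [if_pos hu]
    · have h1 : y w = 0 := by
        apply hy1
        intro hmem
        obtain ⟨u', hu', he⟩ := Finset.mem_image.1 hmem
        exact hw ⟨u', hFS hu', he⟩
      rw [h1]
      apply Finset.sum_eq_zero
      intro u hu
      obtain ⟨hu1, hu2⟩ := Finset.mem_filter.1 hu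
      exact absurd ⟨u, hu1, hu2⟩ hw
  have hab : ∀ x ∈ Sp L, a (b x) = x := by
    rintro x ⟨hx0, F, hF, hx1, hx2⟩
    have hFS := hS F hF
    funext u
    show (if u ∈ S then b x (f u) else 0) = x u
    split_ifs with h
    · exact hbf x u h
    · exact (hx1 u (fun hu => h (hFS hu))).symm
  have hac : Continuous a := by
    apply continuous_pi
    intro u
    show Continuous (fun y : W → ℝ => if u ∈ S then y (f u) else 0)
    by_cases h : u ∈ S
    · simp only [if_pos h]
      exact continuous_apply _
    · simp only [if_neg h]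
      exact continuous_const
  have hbc : Continuous b := by
    apply continuous_pi
    intro w
    show Continuous (fun x : V → ℝ => ∑ u ∈ S.filter (fun u => f u = w), x u)
    exact continuous_finset_sum _ (fun u _ => continuous_apply u)
  exact ⟨{
    toFun := fun y => ⟨a y.1, ha y.1 y.2⟩
    invFun := fun x => ⟨b x.1, hb0 x.1 x.2⟩
    left_inv := fun y => Subtype.ext (hba y.1 y.2)
    right_inv := fun x => Subtype.ext (hab x.1 x.2)
    continuous_toFun := (hac.comp continuous_subtype_val).subtype_mk _
    continuous_invFun := (hbc.comp continuous_subtype_val).subtype_mk _ }⟩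

end Pool.Agent.Helper175.NS
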