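import Mathlib
import Pool.Agent.Helper175.NS.Top

set_option autoImplicit false

namespace Pool.Agent.Helper175.NS

open Finset

theorem mem_star {V : Type} [DecidableEq V] {L : Finset (Finset V)} {ρ : Finset V} {v : V}
    {A : Finset V} : A ∈ star L ρ v ↔ (A ∈ L ∧ ¬ ρ ⊆ A) ∨
      ∃ F ∈ L, ρ ⊆ F ∧ ∃ z ∈ ρ, insert v (F.erase z) = A := by
  simp only [star, mem_union, mem_filter, mem_biUnion, mem_image]
  constructor
  · rintro (h | ⟨F, ⟨h1, h2⟩, z, h3, h4⟩)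
    · exact Or.inl h
    · exact Or.inr ⟨F, h1, h2, z, h3, h4⟩
  · rintro (h | ⟨F, h1, h2, z, h3, h4⟩)
    · exact Or.inl h
    · exact Or.inr ⟨F, ⟨h1, h2⟩, z, h3, h4⟩

/-- the four vertices of the simplex to be replaced -/
def s4 : Finset ℕ := {0, 1, 2, 3}

theorem mem_s4 {n : ℕ} : n ∈ s4 ↔ n < 4 := by
  simp only [s4, mem_insert, mem_singleton]
  omega

/-- the labels between `4` and `63` are not used -/
def Old (L : Finset (Finset ℕ)) : Prop := ∀ F ∈ L, ∀ n ∈ F, n < 4 ∨ 64 ≤ n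

/-- replacement of the simplex `s4` by the complex generated by `M` -/
def Sub (L M : Finset (Finset ℕ)) : Finset (Finset ℕ) :=
  L.filter (fun F => ¬ s4 ⊆ F) ∪
    (L.filter (fun F => s4 ⊆ F)).biUnion (fun F => M.image (fun β => β ∪ (F \ s4)))

theorem mem_Sub {L M : Finset (Finset ℕ)} {A : Finset ℕ} :
    A ∈ Sub L M ↔ (A ∈ L ∧ ¬ s4 ⊆ A) ∨ ∃ F ∈ L, s4 ⊆ F ∧ ∃ β ∈ M, β ∪ (F \ s4) = A := by
  simp only [Sub, mem_union, mem_filter, mem_biUnion, mem_image]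
  constructor
  · rintro (h | ⟨F, ⟨h1, h2⟩, z, h3, h4⟩)
    · exact Or.inl h
    · exact Or.inr ⟨F, h1, h2, z, h3, h4⟩
  · rintro (h | ⟨F, h1, h2, z, h3, h4⟩)
    · exact Or.inl h
    · exact Or.inr ⟨F, ⟨h1, h2⟩, z, h3, h4⟩

theorem Sub_self (L : Finset (Finset ℕ)) : Sub L {s4} = L := by
  ext A
  rw [mem_Sub]
  constructor
  · rintro (⟨h, _⟩ | ⟨F, h1, h2, β, h3, h4⟩)
    · exact h
    · rw [mem_singleton] at h3
      rw [← h4, h3, union_sdiff_of_subset h2]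
      exact h1
  · intro h
    by_cases h2 : s4 ⊆ A
    · exact Or.inr ⟨A, h, h2, s4, mem_singleton_self _, union_sdiff_of_subset h2⟩
    · exact Or.inl ⟨h, h2⟩

/-- an old set contains no new label -/
theorem Old.not_mem {L : Finset (Finset ℕ)} (hL : Old L) {F : Finset ℕ} (hF : F ∈ L) {n : ℕ}
    (h4 : 4 ≤ n) (h64 : n < 64) : n ∉ F := by
  intro h
  have := hL F hF n h
  omega

theorem Old.not_mem_sdiff {L : Finset (Finset ℕ)} (hL : Old L) {F : Finset ℕ} (hF : F ∈ L)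
    {n : ℕ} (h64 : n < 64) : n ∉ F \ s4 := by
  intro h
  rw [mem_sdiff, mem_s4] at h
  have := hL F hF n h.1
  omega

theorem star_Sub (L M : Finset (Finset ℕ)) (hL : Old L) (ρ : Finset ℕ) (v : ℕ)
    (hρ : ∀ n ∈ ρ, n < 64) (h : ρ = s4 ∨ ∃ n ∈ ρ, 4 ≤ n) :
    star (Sub L M) ρ v = Sub L (star M ρ v) := by
  have key1 : ∀ A ∈ L, ¬ s4 ⊆ A → ¬ ρ ⊆ A := by
    intro A hA hs hρA
    rcases h with h | ⟨n, hn, h4⟩
    · rw [h] at hρA; exact hs hρA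
    · exact hL.not_mem hA h4 (hρ n hn) (hρA hn)
  have key2 : ∀ F ∈ L, ∀ β : Finset ℕ, ρ ⊆ β ∪ (F \ s4) → ρ ⊆ β := by
    intro F hF β hρβ n hn
    rcases mem_union.1 (hρβ hn) with h1 | h1
    · exact h1
    · exact absurd h1 (hL.not_mem_sdiff hF (hρ n hn))
  have key3 : ∀ F ∈ L, ∀ β : Finset ℕ, ∀ z ∈ ρ,
      insert v ((β ∪ (F \ s4)).erase z) = insert v (β.erase z) ∪ (F \ s4) := by
    intro F hF β z hz
    have h1 := hL.not_mem_sdiff hF (hρ z hz)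
    ext n
    simp only [mem_insert, mem_erase, mem_union]
    constructor
    · rintro (h2 | ⟨h2, h3 | h3⟩)
      · exact Or.inl (Or.inl h2)
      · exact Or.inl (Or.inr ⟨h2, h3⟩)
      · exact Or.inr h3
    · rintro ((h2 | ⟨h2, h3⟩) | h2)
      · exact Or.inl h2
      · exact Or.inr ⟨h2, Or.inl h3⟩
      · refine Or.inr ⟨?_, Or.inr h2⟩
        rintro rfl
        exact h1 h2
  ext A
  constructor
  · intro hA
    rw [mem_star] at hA
    rw [mem_Sub]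
    rcases hA with ⟨h1, h2⟩ | ⟨A', h1, h2, z, hz, rfl⟩
    · rcases mem_Sub.1 h1 with h3 | ⟨F, h3, h4, β, h5, rfl⟩
      · exact Or.inl h3
      · refine Or.inr ⟨F, h3, h4, β, mem_star.2 (Or.inl ⟨h5, ?_⟩), rfl⟩
        intro h6
        exact h2 (h6.trans subset_union_left)
    · rcases mem_Sub.1 h1 with ⟨h3, h4⟩ | ⟨F, h3, h4, β, h5, rfl⟩
      · exact absurd h2 (key1 A' h3 h4)
      · exact Or.inr ⟨F, h3, h4, insert v (β.erase z),
          mem_star.2 (Or.inr ⟨β, h5, key2 F h3 β h2, z, hz, rfl⟩), (key3 F h3 β z hz).symm⟩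
  · intro hA
    rw [mem_Sub] at hA
    rw [mem_star]
    rcases hA with ⟨h1, h2⟩ | ⟨F, h1, h2, γ, h3, rfl⟩
    · exact Or.inl ⟨mem_Sub.2 (Or.inl ⟨h1, h2⟩), key1 A h1 h2⟩
    · rcases mem_star.1 h3 with ⟨h4, h5⟩ | ⟨β, h4, h5, z, hz, rfl⟩
      · exact Or.inl ⟨mem_Sub.2 (Or.inr ⟨F, h1, h2, γ, h4, rfl⟩),
          fun h6 => h5 (key2 F h1 γ h6)⟩
      · exact Or.inr ⟨β ∪ (F \ s4), mem_Sub.2 (Or.inr ⟨F, h1, h2, β, h4, rfl⟩),
          h5.trans subset_union_left, z, hz, key3 F h1 β z hz⟩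

theorem step_homeo (L : Finset (Finset ℕ)) (hL : Old L) (M M' : Finset (Finset ℕ))
    (ρ ρ' : Finset ℕ) (hne : ρ.Nonempty) (hne' : ρ'.Nonempty)
    (hρ : ∀ n ∈ ρ, n < 13) (hρ' : ∀ n ∈ ρ', n < 13)
    (h : ρ = s4 ∨ ∃ n ∈ ρ, 4 ≤ n) (h' : ρ' = s4 ∨ ∃ n ∈ ρ', 4 ≤ n)
    (hM : ∀ β ∈ M, 13 ∉ β) (hM' : ∀ β ∈ M', 13 ∉ β)
    (heq : star M ρ 13 = star M' ρ' 13) :
    Nonempty (Sp (Sub L M') ≃ₜ Sp (Sub L M)) := by
  have key : ∀ N : Finset (Finset ℕ), (∀ β ∈ N, 13 ∉ β) → ∀ F ∈ Sub L N, 13 ∉ F := by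
    intro N hN F hF
    rcases mem_Sub.1 hF with ⟨h1, _⟩ | ⟨F', h1, _, β, h2, rfl⟩
    · exact hL.not_mem h1 (by omega) (by omega)
    · rw [mem_union, not_or]
      exact ⟨hN β h2, hL.not_mem_sdiff h1 (by omega)⟩
  obtain ⟨e1⟩ := star_homeo (Sub L M) ρ 13 hne (key M hM) (fun h => by have := hρ 13 h; omega)
  obtain ⟨e2⟩ := star_homeo (Sub L M') ρ' 13 hne' (key M' hM')
    (fun h => by have := hρ' 13 h; omega)
  rw [star_Sub L M hL ρ 13 (fun n hn => by have := hρ n hn; omega) h] at e1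
  rw [star_Sub L M' hL ρ' 13 (fun n hn => by have := hρ' n hn; omega) h', ← heq] at e2
  exact ⟨e2.symm.trans e1⟩

end Pool.Agent.Helper175.NS
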