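import Mathlib
import Pool.Agent.Helper175.NS.Sub

set_option autoImplicit false

namespace Pool.Agent.Helper175.NS

open Finset

/-- the set with a given bit mask -/
def dec (m : ℕ) : Finset ℕ := (range 14).filter (fun i => m.testBit i = true)

theorem mem_dec {m n : ℕ} : n ∈ dec m ↔ n < 14 ∧ m.testBit n = true := by
  rw [dec, mem_filter, mem_range]

def decL (l : List ℕ) : Finset (Finset ℕ) := (l.map dec).toFinset

theorem mem_decL {l : List ℕ} {A : Finset ℕ} : A ∈ decL l ↔ ∃ m ∈ l, dec m = A := by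
  rw [decL, List.mem_toFinset, List.mem_map]

def bits (m : ℕ) : List ℕ := (List.range 14).filter (fun i => m.testBit i)

theorem mem_bits {m n : ℕ} : n ∈ bits m ↔ n ∈ dec m := by
  rw [bits, List.mem_filter, List.mem_range, mem_dec]

def starB (l : List ℕ) (ρ v : ℕ) : List ℕ :=
  l.flatMap (fun m => if m &&& ρ = ρ then (bits ρ).map (fun z => (m ^^^ 2 ^ z) ||| 2 ^ v) else [m])

theorem land_eq {m ρ : ℕ} (hρ : ρ < 8192) : m &&& ρ = ρ ↔ dec ρ ⊆ dec m := by
  constructor
  · intro h n hn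
    rw [mem_dec] at hn ⊢
    refine ⟨hn.1, ?_⟩
    have h1 := congrArg (fun k => Nat.testBit k n) h
    simp only [Nat.testBit_land, hn.2, Bool.and_true] at h1
    exact h1
  · intro h
    apply Nat.eq_of_testBit_eq
    intro i
    rw [Nat.testBit_land]
    rcases Nat.lt_or_ge i 14 with hi | hi
    · cases h1 : ρ.testBit i with
      | false => simp
      | true =>
        have h2 := h (mem_dec.2 ⟨hi, h1⟩)
        rw [mem_dec] at h2
        simp [h2.2]
    · have h1 : ρ.testBit i = false := by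
        apply Nat.testBit_eq_false_of_lt
        calc ρ < 2 ^ 13 := by norm_num; exact hρ
          _ ≤ 2 ^ i := Nat.pow_le_pow_right (by norm_num) (by omega)
      simp [h1]

theorem dec_swap {m z v : ℕ} (hz : z ∈ dec m) (hv : v < 14) (hzv : z ≠ v) :
    dec ((m ^^^ 2 ^ z) ||| 2 ^ v) = insert v ((dec m).erase z) := by
  rw [mem_dec] at hz
  ext n
  rw [mem_insert, mem_erase, mem_dec, mem_dec, Nat.testBit_lor, Nat.testBit_xor,
    Nat.testBit_two_pow, Nat.testBit_two_pow]
  by_cases h1 : n = v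
  · subst h1
    simp [hv]
  · by_cases h2 : n = z
    · subst h2
      simp [hz.2, h1, Ne.symm h1]
    · simp [h1, h2, Ne.symm h1, Ne.symm h2]

theorem decL_starB (l : List ℕ) (ρ : ℕ) (hρ : ρ < 8192) :
    decL (starB l ρ 13) = star (decL l) (dec ρ) 13 := by
  have h13 : 13 ∉ dec ρ := by
    rw [mem_dec]
    rintro ⟨_, h⟩
    rw [Nat.testBit_eq_false_of_lt (by norm_num; exact hρ)] at h
    exact absurd h (by decide)
  ext A
  rw [mem_decL, mem_star]
  constructor
  · rintro ⟨m', hm', rfl⟩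
    rw [starB, List.mem_flatMap] at hm'
    obtain ⟨m, hm, h1⟩ := hm'
    split_ifs at h1 with h2
    · rw [List.mem_map] at h1
      obtain ⟨z, hz, rfl⟩ := h1
      rw [mem_bits] at hz
      have h3 := (land_eq hρ).1 h2
      right
      refine ⟨dec m, mem_decL.2 ⟨m, hm, rfl⟩, h3, z, hz, ?_⟩
      rw [dec_swap (v := 13) (h3 hz) (by norm_num) (fun h => h13 (by rw [← h]; exact hz))]
    · rw [List.mem_singleton] at h1
      subst h1
      left
      exact ⟨mem_decL.2 ⟨m', hm, rfl⟩, fun h => h2 ((land_eq hρ).2 h)⟩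
  · rintro (⟨h1, h2⟩ | ⟨F, h1, h2, z, hz, rfl⟩)
    · obtain ⟨m, hm, rfl⟩ := mem_decL.1 h1
      refine ⟨m, ?_, rfl⟩
      rw [starB, List.mem_flatMap]
      refine ⟨m, hm, ?_⟩
      rw [if_neg (fun h => h2 ((land_eq hρ).1 h))]
      exact List.mem_singleton_self _
    · obtain ⟨m, hm, rfl⟩ := mem_decL.1 h1
      refine ⟨(m ^^^ 2 ^ z) ||| 2 ^ 13, ?_, ?_⟩
      · rw [starB, List.mem_flatMap]
        refine ⟨m, hm, ?_⟩
        rw [if_pos ((land_eq hρ).2 h2), List.mem_map]
        exact ⟨z, mem_bits.2 hz, rfl⟩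
      · rw [dec_swap (v := 13) (h2 hz) (by norm_num) (fun h => h13 (by rw [← h]; exact hz))]

def sameB (l l' : List ℕ) : Bool :=
  l.all (fun m => l'.contains m) && l'.all (fun m => l.contains m)

theorem decL_of_sameB {l l' : List ℕ} (h : sameB l l' = true) : decL l = decL l' := by
  rw [sameB, Bool.and_eq_true, List.all_eq_true, List.all_eq_true] at h
  ext A
  rw [mem_decL, mem_decL]
  constructor
  · rintro ⟨m, hm, rfl⟩
    exact ⟨m, by simpa using h.1 m hm, rfl⟩
  · rintro ⟨m, hm, rfl⟩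
    exact ⟨m, by simpa using h.2 m hm, rfl⟩

def applyB (l : List ℕ) (ρ ρ' : ℕ) : List ℕ :=
  l.filter (fun m => !(decide (m &&& ρ = ρ))) ++ (bits ρ).map (fun z => (ρ ^^^ 2 ^ z) ||| ρ')

def okStep (l l' : List ℕ) (ρ ρ' : ℕ) : Bool :=
  sameB (starB l ρ 13) (starB l' ρ' 13) && l'.all (fun m => decide (m < 8192)) &&
    decide (ρ < 8192) && decide (ρ' < 8192) && (decide (ρ = 15) || decide (16 ≤ ρ)) &&
    decide (16 ≤ ρ')

def chainB : List ℕ → List (ℕ × ℕ) → List ℕ → Bool
  | l, [], t => sameB l t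
  | l, r :: ms, t => okStep l (applyB l r.1 r.2) r.1 r.2 && chainB (applyB l r.1 r.2) ms t

theorem exists_big {ρ : ℕ} (h1 : ρ < 8192) (h2 : 16 ≤ ρ) : ∃ n ∈ dec ρ, 4 ≤ n := by
  by_contra hcon
  push Not at hcon
  have h3 : ρ < 2 ^ 4 := by
    apply Nat.lt_pow_two_of_testBit
    intro i hi
    by_contra h4
    rw [Bool.not_eq_false] at h4
    have h5 : i < 14 := by
      by_contra h6
      rw [Nat.testBit_eq_false_of_lt (by
        calc ρ < 2 ^ 13 := by norm_num; exact h1
          _ ≤ 2 ^ i := Nat.pow_le_pow_right (by norm_num) (by omega))] at h4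
      exact absurd h4 (by decide)
    have := hcon i (mem_dec.2 ⟨h5, h4⟩)
    omega
  norm_num at h3
  omega

theorem dec_15 : dec 15 = s4 := by decide

theorem dec_lt {m : ℕ} (h : m < 8192) : ∀ n ∈ dec m, n < 13 := by
  intro n hn
  rw [mem_dec] at hn
  by_contra hcon
  have h1 : n = 13 := by omega
  subst h1
  rw [Nat.testBit_eq_false_of_lt (by norm_num; exact h)] at hn
  exact absurd hn.2 (by decide)

theorem chain_homeo (L : Finset (Finset ℕ)) (hL : Old L) (ms : List (ℕ × ℕ)) :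
    ∀ (l t : List ℕ), (∀ m ∈ l, m < 8192) → chainB l ms t = true →
      Nonempty (Sp (Sub L (decL t)) ≃ₜ Sp (Sub L (decL l))) := by
  induction ms with
  | nil =>
    intro l t _ h
    rw [chainB] at h
    rw [decL_of_sameB h]
    exact ⟨Homeomorph.refl _⟩
  | cons r ms ih =>
    intro l t hl h
    rw [chainB, Bool.and_eq_true] at h
    obtain ⟨h1, h2⟩ := h
    simp only [okStep, Bool.and_eq_true, Bool.or_eq_true, decide_eq_true_eq, List.all_eq_true]
      at h1
    obtain ⟨⟨⟨⟨⟨h3, h4⟩, h5⟩, h6⟩, h7⟩, h8⟩ := h1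
    obtain ⟨e1⟩ := ih (applyB l r.1 r.2) t h4 h2
    have h9 : dec r.1 = s4 ∨ ∃ n ∈ dec r.1, 4 ≤ n := by
      rcases h7 with h7 | h7
      · left; rw [h7]; exact dec_15
      · right; exact exists_big h5 h7
    have h10 := exists_big h6 h8
    have hne : (dec r.1).Nonempty := by
      rcases h9 with h9 | ⟨n, hn, _⟩
      · rw [h9]; exact ⟨0, by decide⟩
      · exact ⟨n, hn⟩
    have hne' : (dec r.2).Nonempty := by
      obtain ⟨n, hn, _⟩ := h10
      exact ⟨n, hn⟩
    have h13 : ∀ l' : List ℕ, (∀ m ∈ l', m < 8192) → ∀ β ∈ decL l', 13 ∉ β := by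
      intro l' hl' β hβ hmem
      obtain ⟨m, hm, rfl⟩ := mem_decL.1 hβ
      have := dec_lt (hl' m hm) 13 hmem
      omega
    have heq : star (decL l) (dec r.1) 13 = star (decL (applyB l r.1 r.2)) (dec r.2) 13 := by
      rw [← decL_starB l r.1 h5, ← decL_starB _ r.2 h6]
      exact decL_of_sameB h3
    obtain ⟨e2⟩ := step_homeo L hL (decL l) (decL (applyB l r.1 r.2)) (dec r.1) (dec r.2) hne hne'
      (dec_lt h5) (dec_lt h6) h9 (Or.inr h10) (h13 l hl) (h13 _ h4) heq
    exact ⟨e1.trans e2⟩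

def Bm : List ℕ := [23, 75, 531, 579, 2061, 4117, 6149, 329, 2313, 1073, 4145, 1553, 1185, 2209,
  6177, 1345, 1601, 1409, 2433, 1038, 278, 1286, 4170, 5130, 2322, 2578, 2242, 4290, 2626, 1410,
  2434, 5250, 1068, 2092, 4372, 1316, 4388, 6180, 2200, 4248, 2328, 4376, 1192, 2216, 4424, 5256,
  1136, 4208, 2256, 4304, 3152, 3600, 1376, 4448, 3648]

def moves : List (ℕ × ℕ) := [(15, 256), (269, 1024), (268, 1026), (1289, 128), (1288, 130),
  (394, 2048), (392, 2049), (263, 16), (267, 64), (259, 80), (337, 32), (273, 36), (322, 24),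
  (368, 4096), (336, 4104), (266, 2064), (261, 1056), (2058, 144), (26, 192), (1029, 40),
  (1033, 160), (146, 2112), (2130, 512), (82, 513), (304, 4100), (289, 1088), (97, 1040),
  (137, 2080), (41, 2052), (88, 4224), (81, 1536), (200, 4098), (592, 3072), (52, 4097),
  (138, 5120), (37, 6144)]

theorem chain_ok : chainB [15] moves Bm = true := by decide +kernel

theorem sub_homeo (L : Finset (Finset ℕ)) (hL : Old L) :
    Nonempty (Sp (Sub L (decL Bm)) ≃ₜ Sp L) := by
  obtain ⟨e⟩ := chain_homeo L hL moves [15] Bm (by decide) chain_ok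
  have h1 : decL [15] = {s4} := by
    rw [← dec_15]; rfl
  rw [h1, Sub_self] at e
  exact ⟨e⟩

end Pool.Agent.Helper175.NS
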