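import Mathlib

set_option autoImplicit false

namespace Pool.Agent.Helper175.NS

/-- `Shell l`: the list `l`, read from its end, is a shelling order -/
def Shell {V : Type} [DecidableEq V] : List (Finset V) → Prop
  | [] => True
  | F :: l => Shell l ∧ ∀ G ∈ l, ∃ H ∈ l, ∃ y ∈ F, F ∩ G ⊆ F.erase y ∧ F.erase y ⊆ H

/-- a function on vertices compatible with the transition functions `psi` on all members of `l` -/
def Flat {V : Type} (K : V → Prop) (psi : V → V → Fin 3 → Fin 3) (g : V → Fin 3)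
    (l : List (Finset V)) : Prop :=
  ∀ F ∈ l, ∀ u ∈ F, ∀ v ∈ F, ¬ K u → ¬ K v → g v = psi u v (g u)

/-- local conditions on one facet -/
structure Good {V : Type} (K : V → Prop) (psi : V → V → Fin 3 → Fin 3) (col : V → V → Fin 3)
    (F : Finset V) : Prop where
  card : F.card = 4
  refl : ∀ u ∈ F, ¬ K u → ∀ c, psi u u c = c
  coc : ∀ u ∈ F, ∀ v ∈ F, ∀ w ∈ F, ¬ K u → ¬ K v → ¬ K w → ∀ c, psi v w (psi u v c) = psi u w c
  colf : ∀ a ∈ F, K a → ∀ u ∈ F, ∀ v ∈ F, ¬ K u → ¬ K v → psi u v (col a u) = col a v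
  cole : ∀ a ∈ F, ∀ b ∈ F, K a → K b → ∀ u ∈ F, ¬ K u → col a u = col b u
  two : ∀ a ∈ F, ∀ b ∈ F, ∀ c ∈ F, K a → K b → K c → a = b ∨ a = c ∨ b = c

theorem Good.exists_nonK {V : Type} [DecidableEq V] {K : V → Prop}
    {psi : V → V → Fin 3 → Fin 3} {col : V → V → Fin 3} {F : Finset V}
    (h : Good K psi col F) (y : V) : ∃ u ∈ F.erase y, ¬ K u := by
  by_contra hc
  push Not at hc
  have hcard : 2 < (F.erase y).card := by
    have := Finset.pred_card_le_card_erase (a := y) (s := F)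
    have h4 := h.card
    omega
  obtain ⟨a, ha, b, hb, c, hc', hab, hac, hbc⟩ := Finset.two_lt_card.1 hcard
  rcases h.two a (Finset.mem_of_mem_erase ha) b (Finset.mem_of_mem_erase hb) c
    (Finset.mem_of_mem_erase hc') (hc a ha) (hc b hb) (hc c hc') with h1 | h1 | h1
  · exact hab h1
  · exact hac h1
  · exact hbc h1

theorem Good.exists_two {V : Type} [DecidableEq V] {K : V → Prop}
    {psi : V → V → Fin 3 → Fin 3} {col : V → V → Fin 3} {F : Finset V}
    (h : Good K psi col F) (x y : V) :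
    ∃ z1 ∈ F, ∃ z2 ∈ F, z1 ≠ z2 ∧ z1 ≠ x ∧ z1 ≠ y ∧ z2 ≠ x ∧ z2 ≠ y := by
  have hcard : 1 < ((F.erase x).erase y).card := by
    have h1 := Finset.pred_card_le_card_erase (a := x) (s := F)
    have h2 := Finset.pred_card_le_card_erase (a := y) (s := F.erase x)
    have h4 := h.card
    omega
  obtain ⟨a, ha, b, hb, hab⟩ := Finset.one_lt_card.1 hcard
  simp only [Finset.mem_erase] at ha hb
  exact ⟨a, ha.2.2, b, hb.2.2, hab, ha.2.1, ha.1, hb.2.1, hb.1⟩

theorem extend {V : Type} [DecidableEq V] {K : V → Prop} {psi : V → V → Fin 3 → Fin 3}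
    {col : V → V → Fin 3} {F : Finset V} {l : List (Finset V)} (hne : ∃ G, G ∈ l)
    (hl : Shell (F :: l)) (hg : Good K psi col F) {g : V → Fin 3} (hfl : Flat K psi g l)
    (hCl : ∀ x ∈ F, ∀ y ∈ F, x ≠ y → ¬ K x → ¬ K y → (∀ z ∈ F, z ≠ x → z ≠ y → K z) →
      ∀ H1 ∈ l, ∀ H2 ∈ l, F.erase x ⊆ H1 → F.erase y ⊆ H2 → g x = psi y x (g y)) :
    ∃ g2 : V → Fin 3, Flat K psi g2 (F :: l) ∧ ∀ G ∈ l, ∀ w ∈ G, g2 w = g w := by
  classical
  obtain ⟨G0, hG0⟩ := hne
  obtain ⟨H, hH, x, hxF, -, hxH⟩ := hl.2 G0 hG0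
  obtain ⟨u0, hu0, hu0K⟩ := hg.exists_nonK x
  have hu0F : u0 ∈ F := Finset.mem_of_mem_erase hu0
  have hu0x : u0 ≠ x := Finset.ne_of_mem_erase hu0
  have hu0H : u0 ∈ H := hxH hu0
  let g2 : V → Fin 3 := fun w => if ∃ G ∈ l, w ∈ G then g w else psi u0 w (g u0)
  have hg2l : ∀ G ∈ l, ∀ w ∈ G, g2 w = g w := fun G hG w hw => by
    have : ∃ G ∈ l, w ∈ G := ⟨G, hG, hw⟩
    simp only [g2, if_pos this]
  have claim : ∀ w ∈ F, ¬ K w → g2 w = psi u0 w (g u0) := by
    intro w hw hwK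
    by_cases hex : ∃ G ∈ l, w ∈ G
    · obtain ⟨G, hG, hwG⟩ := hex
      rw [hg2l G hG w hwG]
      obtain ⟨H2, hH2, y, hyF, hy1, hy2⟩ := hl.2 G hG
      have hwy : w ∈ F.erase y := hy1 (Finset.mem_inter.2 ⟨hw, hwG⟩)
      have hwH2 : w ∈ H2 := hy2 hwy
      have hwny : w ≠ y := Finset.ne_of_mem_erase hwy
      by_cases hyx : y = x
      · subst hyx
        exact hfl H hH u0 hu0H w (hxH hwy) hu0K hwK
      · by_cases hz : ∃ z ∈ F, z ≠ x ∧ z ≠ y ∧ ¬ K z
        · obtain ⟨z, hzF, hzx, hzy, hzK⟩ := hz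
          have h1 := hfl H hH u0 hu0H z (hxH (Finset.mem_erase.2 ⟨hzx, hzF⟩)) hu0K hzK
          have h2 := hfl H2 hH2 z (hy2 (Finset.mem_erase.2 ⟨hzy, hzF⟩)) w hwH2 hzK hwK
          rw [h2, h1, hg.coc u0 hu0F z hzF w hw hu0K hzK hwK]
        · push Not at hz
          have hu0y : u0 = y := by
            by_contra hne
            exact hu0K (hz u0 hu0F hu0x hne)
          have hwx : w = x := by
            by_contra hne
            exact hwK (hz w hw hne hwny)
          subst hu0y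
          subst hwx
          exact hCl w hw u0 hu0F (Ne.symm hyx) hwK hu0K hz H hH H2 hH2 hxH hy2
    · simp only [g2, if_neg hex]
  refine ⟨g2, ?_, hg2l⟩
  intro G hG u hu v hv huK hvK
  rcases List.mem_cons.1 hG with rfl | hG
  · rw [claim v hv hvK, claim u hu huK, hg.coc u0 hu0F u hu v hv hu0K huK hvK]
  · rw [hg2l G hG u hu, hg2l G hG v hv]
    exact hfl G hG u hu v hv huK hvK

theorem flat_prescribed {V : Type} [DecidableEq V] {K : V → Prop} {psi : V → V → Fin 3 → Fin 3}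
    {col : V → V → Fin 3} (l : List (Finset V)) : ∀ (F : Finset V), Shell (F :: l) →
    (∀ G ∈ F :: l, Good K psi col G) → (∀ G ∈ l, ∀ a ∈ G, ∀ b ∈ G, K a → K b → a = b) →
    ∀ G ∈ F :: l, ∀ u ∈ G, ¬ K u → ∀ c, ∃ g, Flat K psi g (F :: l) ∧ g u = c := by
  induction l with
  | nil =>
    intro F _ hg _ G hG u hu huK c
    rcases List.mem_cons.1 hG with rfl | hG
    · have hgF := hg G (by simp)
      refine ⟨fun w => psi u w c, ?_, hgF.refl u hu huK c⟩
      intro G' hG' v hv w hw hvK hwK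
      rcases List.mem_cons.1 hG' with rfl | hG'
      · exact (hgF.coc u hu v hv w hw huK hvK hwK c).symm
      · simp at hG'
    · simp at hG
  | cons F' l ih =>
    intro F hS hg hone G hG u hu huK c
    have hgF := hg F (by simp)
    have ext : ∀ g : V → Fin 3, Flat K psi g (F' :: l) →
        ∃ g2 : V → Fin 3, Flat K psi g2 (F :: F' :: l) ∧ ∀ G ∈ F' :: l, ∀ w ∈ G, g2 w = g w := by
      intro g hfl
      refine extend ⟨F', by simp⟩ hS hgF hfl ?_
      intro x hx y hy hxy hxK hyK hz H1 hH1 H2 hH2 h1 h2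
      exfalso
      obtain ⟨z1, hz1, z2, hz2, h12, h1x, h1y, h2x, h2y⟩ := hgF.exists_two x y
      exact h12 (hone H1 hH1 z1 (h1 (Finset.mem_erase.2 ⟨h1x, hz1⟩)) z2
        (h1 (Finset.mem_erase.2 ⟨h2x, hz2⟩)) (hz z1 hz1 h1x h1y) (hz z2 hz2 h2x h2y))
    have ih' := ih F' hS.1 (fun G hG => hg G (List.mem_cons_of_mem _ hG))
      (fun G hG => hone G (List.mem_cons_of_mem _ hG))
    by_cases hex : ∃ G ∈ F' :: l, u ∈ G
    · obtain ⟨G', hG', huG'⟩ := hex
      obtain ⟨g, hfl, hgu⟩ := ih' G' hG' u huG' huK c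
      obtain ⟨g2, h1, h2⟩ := ext g hfl
      exact ⟨g2, h1, (h2 G' hG' u huG').trans hgu⟩
    · have hGF : G = F := by
        rcases List.mem_cons.1 hG with h | h
        · exact h
        · exact absurd ⟨G, h, hu⟩ hex
      subst hGF
      obtain ⟨H, hH, x, hxF, -, hxH⟩ := hS.2 F' (by simp)
      obtain ⟨u0, hu0, hu0K⟩ := hgF.exists_nonK x
      obtain ⟨g, hfl, hgu⟩ := ih' H hH u0 (hxH hu0) hu0K (psi u u0 c)
      obtain ⟨g2, h1, h2⟩ := ext g hfl
      refine ⟨g2, h1, ?_⟩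
      have hu0F := Finset.mem_of_mem_erase hu0
      rw [h1 G (by simp) u0 hu0F u hu hu0K huK, h2 H hH u0 (hxH hu0), hgu,
        hgF.coc u hu u0 hu0F u hu huK hu0K huK, hgF.refl u hu huK]

theorem dichotomy {V : Type} [DecidableEq V] {K : V → Prop} {psi : V → V → Fin 3 → Fin 3}
    {col : V → V → Fin 3} {g : V → Fin 3} {a : V} (ha : K a) (l : List (Finset V)) :
    Shell l → (∀ G ∈ l, Good K psi col G) → Flat K psi g l →
    (∀ G ∈ l, a ∈ G → ∀ w ∈ G, ¬ K w → g w = col a w) ∨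
    (∀ G ∈ l, a ∈ G → ∀ w ∈ G, ¬ K w → g w ≠ col a w) := by
  induction l with
  | nil => intro _ _ _; left; intro G hG; simp at hG
  | cons F l ih =>
    intro hS hg hfl
    have hgF := hg F (by simp)
    have ih' := ih hS.1 (fun G hG => hg G (List.mem_cons_of_mem _ hG))
      (fun G hG => hfl G (List.mem_cons_of_mem _ hG))
    have key : a ∈ F → ∀ u ∈ F, ∀ v ∈ F, ¬ K u → ¬ K v → g u = col a u → g v = col a v := by
      intro haF u hu v hv huK hvK h
      rw [hfl F (by simp) u hu v hv huK hvK, h, hgF.colf a haF ha u hu v hv huK hvK]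
    by_cases haF : a ∈ F
    · by_cases hex : ∃ G ∈ l, a ∈ G
      · obtain ⟨G, hG, haG⟩ := hex
        obtain ⟨H, hH, y, hyF, hy1, hy2⟩ := hS.2 G hG
        have hay : a ∈ F.erase y := hy1 (Finset.mem_inter.2 ⟨haF, haG⟩)
        obtain ⟨u, hu, huK⟩ := hgF.exists_nonK y
        have huF := Finset.mem_of_mem_erase hu
        rcases ih' with h | h
        · left
          intro G' hG' haG' w hw hwK
          rcases List.mem_cons.1 hG' with rfl | hG'
          · exact key haF u huF w hw huK hwK (h H hH (hy2 hay) u (hy2 hu) huK)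
          · exact h G' hG' haG' w hw hwK
        · right
          intro G' hG' haG' w hw hwK
          rcases List.mem_cons.1 hG' with rfl | hG'
          · intro hc
            exact h H hH (hy2 hay) u (hy2 hu) huK (key haF w hw u huF hwK huK hc)
          · exact h G' hG' haG' w hw hwK
      · by_cases hu : ∃ u ∈ F, ¬ K u ∧ g u = col a u
        · obtain ⟨u, huF, huK, hgu⟩ := hu
          left
          intro G' hG' haG' w hw hwK
          rcases List.mem_cons.1 hG' with rfl | hG'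
          · exact key haF u huF w hw huK hwK hgu
          · exact absurd ⟨G', hG', haG'⟩ hex
        · right
          intro G' hG' haG' w hw hwK
          rcases List.mem_cons.1 hG' with rfl | hG'
          · intro hc
            exact hu ⟨w, hw, hwK, hc⟩
          · exact absurd ⟨G', hG', haG'⟩ hex
    · rcases ih' with h | h
      · left
        intro G' hG' haG' w hw hwK
        rcases List.mem_cons.1 hG' with rfl | hG'
        · exact absurd haG' haF
        · exact h G' hG' haG' w hw hwK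
      · right
        intro G' hG' haG' w hw hwK
        rcases List.mem_cons.1 hG' with rfl | hG'
        · exact absurd haG' haF
        · exact h G' hG' haG' w hw hwK

theorem main_dichotomy {V : Type} [DecidableEq V] {K : V → Prop} {psi : V → V → Fin 3 → Fin 3}
    {col : V → V → Fin 3}
    (hK : ∀ a b c d, K a → K b → K c → K d → a = b ∨ a = c ∨ a = d ∨ b = c ∨ b = d ∨ c = d)
    (l : List (Finset V)) : Shell l → (∀ G ∈ l, Good K psi col G) →
    (∀ G ∈ l, ∀ a ∈ G, ∀ b ∈ G, K a → K b → a = b) ∨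
    (∃ g, Flat K psi g l ∧ ∃ a b, K a ∧ K b ∧ a ≠ b ∧ (∃ G ∈ l, a ∈ G) ∧ (∃ G ∈ l, b ∈ G) ∧
      (∀ G ∈ l, a ∈ G → ∀ w ∈ G, ¬ K w → g w = col a w) ∧
      (∀ G ∈ l, b ∈ G → ∀ w ∈ G, ¬ K w → g w = col b w)) := by
  induction l with
  | nil => intro _ _; left; intro G hG; simp at hG
  | cons F l ih =>
    intro hS hg
    have hgF := hg F (by simp)
    rcases ih hS.1 (fun G hG => hg G (List.mem_cons_of_mem _ hG)) with h | h
    · by_cases hF : ∀ a ∈ F, ∀ b ∈ F, K a → K b → a = b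
      · left
        intro G hG
        rcases List.mem_cons.1 hG with rfl | hG
        · exact hF
        · exact h G hG
      · right
        push Not at hF
        obtain ⟨a, haF, b, hbF, haK, hbK, hab⟩ := hF
        obtain ⟨u, hu, huK⟩ := hgF.exists_nonK a
        have huF := Finset.mem_of_mem_erase hu
        obtain ⟨g, hfl, hgu⟩ := flat_prescribed l F hS hg h F (by simp) u huF huK (col a u)
        refine ⟨g, hfl, a, b, haK, hbK, hab, ⟨F, by simp, haF⟩, ⟨F, by simp, hbF⟩, ?_, ?_⟩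
        · rcases dichotomy haK (F :: l) hS hg hfl with h1 | h1
          · exact h1
          · exact absurd hgu (h1 F (by simp) haF u huF huK)
        · rcases dichotomy hbK (F :: l) hS hg hfl with h1 | h1
          · exact h1
          · exact absurd (hgu.trans (hgF.cole a haF b hbF haK hbK u huF huK))
              (h1 F (by simp) hbF u huF huK)
    · right
      obtain ⟨g, hfl, a, b, haK, hbK, hab, ⟨Ga, hGa, haGa⟩, ⟨Gb, hGb, hbGb⟩, hala, halb⟩ := h
      have hcl : ∀ e, K e → (∀ G ∈ l, e ∈ G → ∀ w ∈ G, ¬ K w → g w = col e w) →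
          e ∈ F → ∀ x ∈ F, ∀ y ∈ F, x ≠ y → e ≠ x → e ≠ y → ¬ K x → ¬ K y →
          ∀ H1 ∈ l, ∀ H2 ∈ l, F.erase x ⊆ H1 → F.erase y ⊆ H2 → g x = psi y x (g y) := by
        intro e heK hal heF x hx y hy hxy hex hey hxK hyK H1 hH1 H2 hH2 h1 h2
        have e1 := hal H1 hH1 (h1 (Finset.mem_erase.2 ⟨hex, heF⟩)) y
          (h1 (Finset.mem_erase.2 ⟨hxy.symm, hy⟩)) hyK
        have e2 := hal H2 hH2 (h2 (Finset.mem_erase.2 ⟨hey, heF⟩)) x
          (h2 (Finset.mem_erase.2 ⟨hxy, hx⟩)) hxK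
        rw [e1, e2, hgF.colf e heF heK y hy x hx hyK hxK]
      obtain ⟨g2, hfl2, hg2⟩ := extend (col := col) ⟨Ga, hGa⟩ hS hgF hfl (by
        intro x hx y hy hxy hxK hyK hz H1 hH1 H2 hH2 h1 h2
        obtain ⟨z1, hz1, z2, hz2, h12, h1x, h1y, h2x, h2y⟩ := hgF.exists_two x y
        rcases hK a b z1 z2 haK hbK (hz z1 hz1 h1x h1y) (hz z2 hz2 h2x h2y) with
          e | e | e | e | e | e
        · exact absurd e hab
        · subst e
          exact hcl a haK hala hz1 x hx y hy hxy h1x h1y hxK hyK H1 hH1 H2 hH2 h1 h2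
        · subst e
          exact hcl a haK hala hz2 x hx y hy hxy h2x h2y hxK hyK H1 hH1 H2 hH2 h1 h2
        · subst e
          exact hcl b hbK halb hz1 x hx y hy hxy h1x h1y hxK hyK H1 hH1 H2 hH2 h1 h2
        · subst e
          exact hcl b hbK halb hz2 x hx y hy hxy h2x h2y hxK hyK H1 hH1 H2 hH2 h1 h2
        · exact absurd e h12)
      have hpers : ∀ e, K e → (∀ G ∈ l, e ∈ G → ∀ w ∈ G, ¬ K w → g w = col e w) →
          (∃ G ∈ l, e ∈ G) → (∀ G ∈ F :: l, e ∈ G → ∀ w ∈ G, ¬ K w → g2 w = col e w) := by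
        rintro e heK hal ⟨G, hG, heG⟩
        rcases dichotomy heK (F :: l) hS hg hfl2 with h1 | h1
        · exact h1
        · exfalso
          obtain ⟨u, hu, huK⟩ := (hg G (List.mem_cons_of_mem _ hG)).exists_nonK e
          have huG := Finset.mem_of_mem_erase hu
          exact h1 G (List.mem_cons_of_mem _ hG) heG u huG huK
            ((hg2 G hG u huG).trans (hal G hG heG u huG huK))
      exact ⟨g2, hfl2, a, b, haK, hbK, hab, ⟨Ga, List.mem_cons_of_mem _ hGa, haGa⟩,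
        ⟨Gb, List.mem_cons_of_mem _ hGb, hbGb⟩, hpers a haK hala ⟨Ga, hGa, haGa⟩,
        hpers b hbK halb ⟨Gb, hGb, hbGb⟩⟩

theorem exists_flat {V : Type} [DecidableEq V] (K : V → Prop) (psi : V → V → Fin 3 → Fin 3)
    (col : V → V → Fin 3) (l : List (Finset V)) (hl : Shell l)
    (hK : ∀ a b c d, K a → K b → K c → K d → a = b ∨ a = c ∨ a = d ∨ b = c ∨ b = d ∨ c = d)
    (hg : ∀ F ∈ l, Good K psi col F)
    (he : ∃ F ∈ l, ∃ a ∈ F, ∃ b ∈ F, K a ∧ K b ∧ a ≠ b) : ∃ g, Flat K psi g l := by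
  rcases main_dichotomy hK l hl hg with h | ⟨g, h, -⟩
  · obtain ⟨F, hF, a, ha, b, hb, haK, hbK, hab⟩ := he
    exact absurd (h F hF a ha b hb haK hbK) hab
  · exact ⟨g, h⟩

end Pool.Agent.Helper175.NS
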