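import Mathlib
import Pool.Agent.Helper175.NS.Mask
import Pool.Agent.Helper175.NS.Section

set_option autoImplicit false

namespace Pool.Agent.Helper175.NS

open Finset

/-- the vertices of the knotted triangle -/
def KK (n : ℕ) : Prop := n = 10 ∨ n = 11 ∨ n = 12

instance : DecidablePred KK := fun n => by unfold KK; infer_instance

/-- transition functions along the edges (only the nontrivial ones are listed) -/
def tab : List (ℕ × (Fin 3 → Fin 3)) :=
  [(5, ![0, 2, 1]), (7, ![1, 2, 0]), (8, ![1, 2, 0]), (52, ![1, 2, 0]), (55, ![1, 0, 2]),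
   (56, ![1, 2, 0]), (69, ![0, 2, 1]), (70, ![2, 1, 0]), (71, ![2, 1, 0]), (86, ![2, 0, 1]),
   (87, ![1, 0, 2]), (104, ![1, 2, 0]),
   (80, ![0, 2, 1]), (112, ![2, 0, 1]), (128, ![2, 0, 1]), (67, ![2, 0, 1]), (115, ![1, 0, 2]),
   (131, ![2, 0, 1]), (84, ![0, 2, 1]), (100, ![2, 1, 0]), (116, ![2, 1, 0]), (101, ![1, 2, 0]),
   (117, ![1, 0, 2]), (134, ![2, 0, 1])]

def psi (u v : ℕ) (c : Fin 3) : Fin 3 :=
  if u < 16 ∧ v < 16 then
    match tab.lookup (16 * u + v) with
    | some p => p c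
    | none => c
  else c

def ctab : List (ℕ × Fin 3) :=
  [(160, 1), (166, 1), (169, 1), (168, 2), (167, 2), (162, 2), (165, 2), (161, 2), (164, 1),
   (163, 2), (176, 0), (178, 0), (179, 0), (183, 1), (184, 1), (180, 1), (182, 1), (177, 1),
   (185, 1), (181, 0), (192, 0), (194, 0), (196, 0), (197, 0), (200, 0), (198, 2), (195, 2),
   (193, 2), (199, 2)]

def col (a u : ℕ) : Fin 3 := (ctab.lookup (16 * a + u)).getD 0

/-- the decidable form of the local conditions, on lists -/
def GoodB (s : List ℕ) : Prop :=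
  s.length = 4 ∧ (∀ u ∈ s, ¬ KK u → ∀ c, psi u u c = c) ∧
  (∀ u ∈ s, ¬ KK u → ∀ v ∈ s, ¬ KK v → ∀ w ∈ s, ¬ KK w → ∀ c, psi v w (psi u v c) = psi u w c) ∧
  (∀ a ∈ s, KK a → ∀ u ∈ s, ¬ KK u → ∀ v ∈ s, ¬ KK v → psi u v (col a u) = col a v) ∧
  (∀ a ∈ s, KK a → ∀ b ∈ s, KK b → ∀ u ∈ s, ¬ KK u → col a u = col b u) ∧
  (∀ a ∈ s, KK a → ∀ b ∈ s, KK b → ∀ c ∈ s, KK c → a = b ∨ a = c ∨ b = c)

instance (s : List ℕ) : Decidable (GoodB s) := by unfold GoodB; infer_instance

theorem good_all : ∀ m ∈ Bm, GoodB (bits m) := by decide +kernel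

theorem good_dec {m : ℕ} (hm : m ∈ Bm) : Good KK psi col (dec m) := by
  obtain ⟨h1, h2, h3, h4, h5, h6⟩ := good_all m hm
  have hb : ∀ n, n ∈ dec m → n ∈ bits m := fun n hn => mem_bits.2 hn
  have hcard : (dec m).card = (bits m).length := by
    have e : dec m = (bits m).toFinset := by
      ext n
      rw [List.mem_toFinset, mem_bits]
    rw [e, List.toFinset_card_of_nodup]
    exact (List.nodup_range).filter _
  exact ⟨by rw [hcard, h1], fun u hu hKu => h2 u (hb u hu) hKu,
    fun u hu v hv w hw ku kv kw => h3 u (hb u hu) ku v (hb v hv) kv w (hb w hw) kw,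
    fun a ha ka u hu v hv ku kv => h4 a (hb a ha) ka u (hb u hu) ku v (hb v hv) kv,
    fun a ha b hb' ka kb u hu ku => h5 a (hb a ha) ka b (hb b hb') kb u (hb u hu) ku,
    fun a ha b hb' c hc ka kb kc => h6 a (hb a ha) ka b (hb b hb') kb c (hb c hc) kc⟩

theorem psi_old {u v : ℕ} (hu : u < 4 ∨ 64 ≤ u) (hv : v < 4 ∨ 64 ≤ v) (c : Fin 3) :
    psi u v c = c := by
  unfold psi
  split_ifs with h
  · have hu' : u < 4 := by omega
    have hv' : v < 4 := by omega
    have h1 : tab.lookup (16 * u + v) = none := by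
      interval_cases u <;> interval_cases v <;> decide
    rw [h1]
  · rfl

theorem good_old {F : Finset ℕ} (h4 : F.card = 4) (h : ∀ n ∈ F, n < 4 ∨ 64 ≤ n) :
    Good KK psi col F := by
  have hK : ∀ n ∈ F, ¬ KK n := by
    intro n hn hKn
    have := h n hn
    unfold KK at hKn
    omega
  exact ⟨h4, fun u hu _ c => psi_old (h u hu) (h u hu) c,
    fun u hu v hv w hw _ _ _ c => by
      rw [psi_old (h u hu) (h v hv), psi_old (h v hv) (h w hw), psi_old (h u hu) (h w hw)],
    fun a ha ka => absurd ka (hK a ha), fun a ha _ _ ka => absurd ka (hK a ha),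
    fun a ha _ _ _ _ ka => absurd ka (hK a ha)⟩

/-- no shelling order exists for a family containing the special ball -/
theorem no_shell (l : List (Finset ℕ)) (hl : Shell l)
    (h4 : ∀ F ∈ l, (∃ m ∈ Bm, dec m = F) ∨ (F.card = 4 ∧ ∀ n ∈ F, n < 4 ∨ 64 ≤ n))
    (hB : ∀ m ∈ Bm, dec m ∈ l) : False := by
  obtain ⟨g, hg⟩ := exists_flat KK psi col l hl (by
    intro a b c d ha hb hc hd
    unfold KK at ha hb hc hd
    omega) (by
    intro F hF
    rcases h4 F hF with ⟨m, hm, rfl⟩ | ⟨h1, h2⟩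
    · exact good_dec hm
    · exact good_old h1 h2) ⟨dec 3152, hB 3152 (by decide), 10, by decide, 11, by decide,
      by decide, by decide, by decide⟩
  have key : ∀ m ∈ Bm, ∀ u ∈ dec m, ∀ v ∈ dec m, ¬ KK u → ¬ KK v → g v = psi u v (g u) :=
    fun m hm => hg (dec m) (hB m hm)
  have h1 := key 23 (by decide) 0 (by decide) 1 (by decide) (by decide) (by decide)
  have h2 := key 23 (by decide) 0 (by decide) 2 (by decide) (by decide) (by decide)
  have h3 := key 1068 (by decide) 2 (by decide) 5 (by decide) (by decide) (by decide)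
  have h5 := key 2242 (by decide) 1 (by decide) 7 (by decide) (by decide) (by decide)
  have h6 := key 1073 (by decide) 0 (by decide) 5 (by decide) (by decide) (by decide)
  have h7 := key 1185 (by decide) 5 (by decide) 7 (by decide) (by decide) (by decide)
  generalize g 0 = a0 at *
  generalize g 1 = a1 at *
  generalize g 2 = a2 at *
  generalize g 5 = a5 at *
  generalize g 7 = a7 at *
  revert a0 a1 a2 a5 a7
  decide

end Pool.Agent.Helper175.NS
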