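import Mathlib
import Pool.Agent.Helper175.NS.Local

set_option autoImplicit false

namespace Pool.Agent.Helper175.NS

open Finset

/-- the complex generated by `L` -/
def gen {V : Type} [DecidableEq V] (L : Finset (Finset V)) : Cx V where
  faces := L.biUnion Finset.powerset
  down := by
    intro F hF G hG
    rw [mem_biUnion] at hF ⊢
    obtain ⟨A, hA, h⟩ := hF
    exact ⟨A, hA, mem_powerset.2 (hG.trans (mem_powerset.1 h))⟩

theorem mem_gen {V : Type} [DecidableEq V] {L : Finset (Finset V)} {G : Finset V} :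
    G ∈ (gen L).faces ↔ ∃ F ∈ L, G ⊆ F := by
  simp only [gen, mem_biUnion, mem_powerset]

theorem sp_le {V : Type} {L M : Finset (Finset V)} (h : ∀ F ∈ L, ∃ G ∈ M, F ⊆ G) :
    Sp L ⊆ Sp M := by
  rintro x ⟨h0, F, hF, hs, h1⟩
  obtain ⟨G, hG, hFG⟩ := h F hF
  refine ⟨h0, G, hG, fun v hv => hs v (fun h => hv (hFG h)), ?_⟩
  rw [← h1]
  exact (sum_subset hFG (fun v _ hv => hs v hv)).symm

theorem space_gen {V : Type} [DecidableEq V] (L : Finset (Finset V)) : (gen L).space = Sp L := by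
  apply Set.Subset.antisymm
  · exact sp_le (fun F hF => mem_gen.1 hF)
  · exact sp_le (fun F hF => ⟨F, mem_gen.2 ⟨F, hF, Subset.refl F⟩, Subset.refl F⟩)

theorem facet_gen {V : Type} [DecidableEq V] {L : Finset (Finset V)} {n : ℕ}
    (hn : ∀ F ∈ L, F.card = n) (F : Finset V) : (gen L).IsFacet F ↔ F ∈ L := by
  constructor
  · rintro ⟨h1, h2⟩
    obtain ⟨G, hG, hFG⟩ := mem_gen.1 h1
    rw [← h2 G (mem_gen.2 ⟨G, hG, Subset.refl G⟩) hFG]
    exact hG
  · intro hF
    refine ⟨mem_gen.2 ⟨F, hF, Subset.refl F⟩, ?_⟩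
    intro G hG hFG
    obtain ⟨A, hA, hGA⟩ := mem_gen.1 hG
    have h1 : F = A := eq_of_subset_of_card_le (hFG.trans hGA) (by rw [hn F hF, hn A hA])
    apply Subset.antisymm _ hFG
    rw [h1]
    exact hGA

theorem shell_take {V : Type} [DecidableEq V] (l : List (Finset V))
    (h : ∀ (i : ℕ) (hi : i < l.length), 0 < i →
      ∀ G : Finset V, (G ⊆ l[i] ∧ ∃ (j : ℕ) (hj : j < i), G ⊆ l[j]) →
        ∃ H : Finset V, (H ⊆ l[i] ∧ ∃ (j : ℕ) (hj : j < i), H ⊆ l[j]) ∧ G ⊆ H ∧
          H.card + 1 = (l[i]).card) (n : ℕ) (hn : n ≤ l.length) : Shell (l.take n).reverse := by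
  induction n with
  | zero => simp [Shell]
  | succ n ih =>
    have h1 : l.take (n + 1) = l.take n ++ [l[n]] := by
      rw [List.take_append_getElem]
    rw [h1, List.reverse_append, List.reverse_singleton, List.singleton_append]
    refine ⟨ih (by omega), ?_⟩
    intro G hG
    rw [List.mem_reverse, List.mem_take_iff_getElem] at hG
    obtain ⟨j, hj, rfl⟩ := hG
    have hjn : j < n := by omega
    obtain ⟨H, ⟨h2, j', hj', h3⟩, h4, h5⟩ := h n (by omega) (by omega) (l[n] ∩ l[j])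
      ⟨inter_subset_left, j, hjn, inter_subset_right⟩
    have h6 : ∃ y, y ∈ l[n] ∧ y ∉ H := by
      by_contra hcon
      push Not at hcon
      have : l[n] ⊆ H := hcon
      have := card_le_card this
      omega
    obtain ⟨y, hy, hyH⟩ := h6
    have h7 : H = l[n].erase y := by
      apply eq_of_subset_of_card_le
      · intro z hz
        exact mem_erase.2 ⟨fun h => hyH (h ▸ hz), h2 hz⟩
      · rw [card_erase_of_mem hy]
        omega
    refine ⟨l[j'], ?_, y, hy, ?_, ?_⟩
    · rw [List.mem_reverse, List.mem_take_iff_getElem]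
      exact ⟨j', by omega, rfl⟩
    · rw [← h7]; exact h4
    · rw [← h7]; exact h3

theorem shell_link {V : Type} [DecidableEq V] (τ : Finset V) (l : List (Finset V))
    (hl : Shell l) : Shell ((l.filter (fun F => decide (τ ⊆ F))).map (fun F => F \ τ)) := by
  induction l with
  | nil => simp [Shell]
  | cons F l ih =>
    obtain ⟨h1, h2⟩ := hl
    by_cases hτ : τ ⊆ F
    · rw [List.filter_cons_of_pos (by simpa using hτ), List.map_cons]
      refine ⟨ih h1, ?_⟩
      intro G' hG'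
      rw [List.mem_map] at hG'
      obtain ⟨G, hG, rfl⟩ := hG'
      rw [List.mem_filter, decide_eq_true_eq] at hG
      obtain ⟨H, hH, y, hy, h3, h4⟩ := h2 G hG.1
      have h5 : τ ⊆ F.erase y := (subset_inter hτ hG.2).trans h3
      have hyτ : y ∉ τ := fun h => (mem_erase.1 (h5 h)).1 rfl
      refine ⟨H \ τ, ?_, y, mem_sdiff.2 ⟨hy, hyτ⟩, ?_, ?_⟩
      · rw [List.mem_map]
        refine ⟨H, ?_, rfl⟩
        rw [List.mem_filter, decide_eq_true_eq]
        exact ⟨hH, h5.trans h4⟩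
      · intro z hz
        rw [mem_inter, mem_sdiff, mem_sdiff] at hz
        have h6 := h3 (mem_inter.2 ⟨hz.1.1, hz.2.1⟩)
        rw [mem_erase] at h6 ⊢
        exact ⟨h6.1, mem_sdiff.2 hz.1⟩
      · intro z hz
        rw [mem_erase, mem_sdiff] at hz
        exact mem_sdiff.2 ⟨h4 (mem_erase.2 ⟨hz.1, hz.2.1⟩), hz.2.2⟩
    · rw [List.filter_cons_of_neg (by simpa using hτ)]
      exact ih h1

theorem Bm_lt : ∀ m ∈ Bm, m < 8192 := by decide

theorem Bm_card {m : ℕ} (hm : m ∈ Bm) : (dec m).card = 4 := (good_dec hm).card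

theorem card_Sub {L : Finset (Finset ℕ)} (hL : Old L) {n : ℕ} (hn : ∀ F ∈ L, F.card = n) :
    ∀ F ∈ Sub L (decL Bm), F.card = n := by
  intro F hF
  rcases mem_Sub.1 hF with ⟨h1, _⟩ | ⟨A, h1, h2, β, h3, rfl⟩
  · exact hn F h1
  · obtain ⟨m, hm, rfl⟩ := mem_decL.1 h3
    have hd : Disjoint (dec m) (A \ s4) := by
      rw [disjoint_left]
      intro k hk
      exact hL.not_mem_sdiff h1 (by have := dec_lt (Bm_lt m hm) k hk; omega)
    rw [card_union_of_disjoint hd, Bm_card hm, card_sdiff_of_subset h2, hn A h1]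
    have h4 : s4.card = 4 := by decide
    have h5 := card_le_card h2
    rw [h4, hn A h1] at h5
    omega

theorem not_shellable {L : Finset (Finset ℕ)} (hL : Old L) {n : ℕ} (hn : ∀ F ∈ L, F.card = n)
    {F0 : Finset ℕ} (hF0 : F0 ∈ L) (hs : s4 ⊆ F0) : ¬ (gen (Sub L (decL Bm))).Shellable := by
  rintro ⟨-, l, -, hl, hsh⟩
  have hmem : ∀ F, F ∈ l ↔ F ∈ Sub L (decL Bm) := fun F => by
    rw [hl F, facet_gen (card_Sub hL hn)]
  have h1 := shell_take l hsh l.length le_rfl
  rw [List.take_length] at h1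
  have h2 := shell_link (F0 \ s4) l.reverse h1
  have hτ : ∀ k ∈ F0 \ s4, 64 ≤ k := by
    intro k hk
    by_contra hcon
    exact hL.not_mem_sdiff hF0 (by omega) hk
  have hdis : ∀ m ∈ Bm, (dec m ∪ (F0 \ s4)) \ (F0 \ s4) = dec m := by
    intro m hm
    rw [union_sdiff_cancel_right]
    rw [disjoint_left]
    intro k hk hk'
    have h3 := dec_lt (Bm_lt m hm) k hk
    have h4 := hτ k hk'
    omega
  have hcard0 : (F0 \ s4).card + 4 = n := by
    rw [card_sdiff_of_subset hs, hn F0 hF0]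
    have h4 : s4.card = 4 := by decide
    have h5 := card_le_card hs
    rw [h4, hn F0 hF0] at h5
    omega
  apply no_shell _ h2
  · intro G hG
    rw [List.mem_map] at hG
    obtain ⟨F, hF, rfl⟩ := hG
    rw [List.mem_filter, decide_eq_true_eq, List.mem_reverse, hmem] at hF
    obtain ⟨hF, hτF⟩ := hF
    rcases mem_Sub.1 hF with ⟨h3, h4⟩ | ⟨A, h3, h4, β, h5, rfl⟩
    · right
      constructor
      · rw [card_sdiff_of_subset hτF, hn F h3]
        omega
      · intro k hk
        exact hL F h3 k (mem_sdiff.1 hk).1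
    · left
      obtain ⟨m, hm, rfl⟩ := mem_decL.1 h5
      refine ⟨m, hm, ?_⟩
      have h6 : F0 \ s4 ⊆ A \ s4 := by
        intro k hk
        rcases mem_union.1 (hτF hk) with h7 | h7
        · have := dec_lt (Bm_lt m hm) k h7
          have := hτ k hk
          omega
        · exact h7
      have h7 : F0 \ s4 = A \ s4 := by
        apply eq_of_subset_of_card_le h6
        rw [card_sdiff_of_subset h4, card_sdiff_of_subset hs, hn A h3, hn F0 hF0]
      rw [← h7, hdis m hm]
  · intro m hm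
    rw [List.mem_map]
    refine ⟨dec m ∪ (F0 \ s4), ?_, hdis m hm⟩
    rw [List.mem_filter, decide_eq_true_eq, List.mem_reverse, hmem]
    exact ⟨mem_Sub.2 (Or.inr ⟨F0, hF0, hs, dec m, mem_decL.2 ⟨m, hm, rfl⟩, rfl⟩),
      subset_union_right⟩

/-- every face lies in a facet -/
theorem exists_facet {V : Type} (Δ : Cx V) {F : Finset V} (hF : F ∈ Δ.faces) :
    ∃ G, Δ.IsFacet G ∧ F ⊆ G := by
  classical
  obtain ⟨G, hG, hmax⟩ := exists_max_image (Δ.faces.filter (fun G => F ⊆ G)) card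
    ⟨F, mem_filter.2 ⟨hF, Subset.refl F⟩⟩
  rw [mem_filter] at hG
  refine ⟨G, ⟨hG.1, ?_⟩, hG.2⟩
  intro H hH hGH
  exact (eq_of_subset_of_card_le hGH (hmax H (mem_filter.2 ⟨hH, hG.2.trans hGH⟩))).symm

/-- relabelling of the vertices -/
theorem exists_label {V : Type} (S σ : Finset V) (hσ : σ ⊆ S) (h4 : σ.card = 4) :
    ∃ f : V → ℕ, Set.InjOn f S ∧ (∀ v ∈ S, f v < 4 ∨ 64 ≤ f v) ∧ ∀ k < 4, ∃ v ∈ σ, f v = k := by
  classical
  let e := σ.equivFin
  let e' := (S \ σ).equivFin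
  refine ⟨fun v => if h : v ∈ σ then (e ⟨v, h⟩ : ℕ) else
    if h : v ∈ S \ σ then 64 + (e' ⟨v, h⟩ : ℕ) else 0, ?_, ?_, ?_⟩
  · intro v hv w hw hvw
    rw [mem_coe] at hv hw
    simp only at hvw
    by_cases h1 : v ∈ σ <;> by_cases h2 : w ∈ σ
    · rw [dif_pos h1, dif_pos h2] at hvw
      have := e.injective (Fin.ext hvw)
      exact congrArg Subtype.val this
    · rw [dif_pos h1, dif_neg h2, dif_pos (mem_sdiff.2 ⟨hw, h2⟩)] at hvw
      have := (e ⟨v, h1⟩).2
      omega
    · rw [dif_neg h1, dif_pos h2, dif_pos (mem_sdiff.2 ⟨hv, h1⟩)] at hvw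
      have := (e ⟨w, h2⟩).2
      omega
    · rw [dif_neg h1, dif_neg h2, dif_pos (mem_sdiff.2 ⟨hv, h1⟩),
        dif_pos (mem_sdiff.2 ⟨hw, h2⟩)] at hvw
      have := e'.injective (Fin.ext (Nat.add_left_cancel hvw))
      exact congrArg Subtype.val this
  · intro v hv
    by_cases h1 : v ∈ σ
    · left
      simp only [dif_pos h1]
      have := (e ⟨v, h1⟩).2
      omega
    · right
      simp only [dif_neg h1, dif_pos (mem_sdiff.2 ⟨hv, h1⟩)]
      omega
  · intro k hk
    let v := e.symm ⟨k, by omega⟩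
    refine ⟨v, v.2, ?_⟩
    simp only [dif_pos v.2]
    simp [v]

theorem main (X : Type*) [TopologicalSpace X] (V : Type) (Δ : Cx V)
    (h : Nonempty (X ≃ₜ Δ.space)) (hd : ∃ F ∈ Δ.faces, 4 ≤ F.card) :
    ∃ (W : Type) (Γ : Cx W), Nonempty (X ≃ₜ Γ.space) ∧ (Δ.Pure → Γ.Pure) ∧ ¬ Γ.Shellable := by
  classical
  by_cases hp : Δ.Pure
  · obtain ⟨F1, hF1, hF1c⟩ := hd
    obtain ⟨F0, hF0, hF10⟩ := exists_facet Δ hF1
    obtain ⟨σ, hσF, hσ4⟩ := exists_subset_card_eq (hF1c.trans (card_le_card hF10))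
    set L0 := Δ.faces.filter (fun F => Δ.IsFacet F) with hL0
    set S := Δ.faces.biUnion id with hS
    have hSF : ∀ F ∈ L0, F ⊆ S := by
      intro F hF v hv
      rw [hS, mem_biUnion]
      exact ⟨F, (mem_filter.1 hF).1, hv⟩
    have hF0L : F0 ∈ L0 := mem_filter.2 ⟨hF0.1, hF0⟩
    obtain ⟨f, hf1, hf2, hf3⟩ := exists_label S σ (hσF.trans (hSF F0 hF0L)) hσ4
    set L := L0.image (fun F => F.image f) with hL
    have hOld : Old L := by
      intro A hA n hn
      obtain ⟨F, hF, rfl⟩ := mem_image.1 hA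
      obtain ⟨v, hv, rfl⟩ := mem_image.1 hn
      exact hf2 v (hSF F hF hv)
    have hcard : ∀ A ∈ L, A.card = F0.card := by
      intro A hA
      obtain ⟨F, hF, rfl⟩ := mem_image.1 hA
      rw [card_image_of_injOn (hf1.mono (by exact_mod_cast hSF F hF))]
      exact hp F F0 (mem_filter.1 hF).2 hF0
    have hFL : F0.image f ∈ L := mem_image.2 ⟨F0, hF0L, rfl⟩
    have hs : s4 ⊆ F0.image f := by
      intro k hk
      rw [mem_s4] at hk
      obtain ⟨v, hv, rfl⟩ := hf3 k hk
      exact mem_image_of_mem f (hσF hv)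
    refine ⟨ℕ, gen (Sub L (decL Bm)), ?_, ?_, not_shellable hOld hcard hFL hs⟩
    swap
    · intro _ A A' hA hA'
      have h1 := card_Sub hOld hcard
      rw [h1 A ((facet_gen h1 A).1 hA), h1 A' ((facet_gen h1 A').1 hA')]
    obtain ⟨e0⟩ := h
    obtain ⟨e1⟩ := relabel_homeo L0 f S hSF hf1
    obtain ⟨e2⟩ := sub_homeo L hOld
    have h1 : Δ.space = Sp L0 := by
      apply Set.Subset.antisymm
      · apply sp_le
        intro F hF
        obtain ⟨G, hG, hFG⟩ := exists_facet Δ hF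
        exact ⟨G, mem_filter.2 ⟨hG.1, hG⟩, hFG⟩
      · apply sp_le
        intro F hF
        exact ⟨F, (mem_filter.1 hF).1, Subset.refl F⟩
    rw [space_gen]
    rw [h1] at e0
    exact ⟨e0.trans (e1.symm.trans e2.symm)⟩
  · exact ⟨V, Δ, h, fun h1 => absurd h1 hp, fun hs => hp hs.1⟩

/-- sanity check: a simplex is shellable -/
theorem simplex_shellable {V : Type} [DecidableEq V] (F : Finset V) :
    (gen ({F} : Finset (Finset V))).Shellable := by
  have hn : ∀ A ∈ ({F} : Finset (Finset V)), A.card = F.card := by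
    intro A hA
    rw [mem_singleton.1 hA]
  refine ⟨?_, [F], by simp, ?_, ?_⟩
  · intro A B hA hB
    rw [facet_gen hn, mem_singleton] at hA hB
    rw [hA, hB]
  · intro A
    rw [facet_gen hn]
    simp
  · intro i hi h0
    simp at hi
    omega

end Pool.Agent.Helper175.NS
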